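import Pool.Agent.Helper94.UP.Sheet

/-! # Row A4 -/

set_option autoImplicit false

open scoped ZeroAtInfty ContDiff NNReal
open Set Filter Topology MeasureTheory

namespace Pool.Agent.Helper94.UP

open Pool.Agent.Helper94.UF Pool.Agent.Helper94.SR

theorem a4_e (S M κ ε : ℝ) (n : ℕ) (hS : 0 ≤ S) (hM : 0 < M) (hκ : 0 < κ) (hε : 0 < ε) :
    ∃ e : ℝ, 0 < e ∧ e ≤ ε ∧ e * S * M ≤ κ * (1 / 2) ^ (n + 1) := by
  have h1 : 0 < κ * (1 / 2 : ℝ) ^ (n + 1) := by positivity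
  have h2 : 0 < 1 + S * M := by positivity
  refine ⟨min ε (κ * (1 / 2 : ℝ) ^ (n + 1) / (1 + S * M)), lt_min hε (by positivity),
    min_le_left _ _, ?_⟩
  have h3 : min ε (κ * (1 / 2 : ℝ) ^ (n + 1) / (1 + S * M)) ≤
      κ * (1 / 2 : ℝ) ^ (n + 1) / (1 + S * M) := min_le_right _ _
  calc min ε (κ * (1 / 2 : ℝ) ^ (n + 1) / (1 + S * M)) * S * M
      = min ε (κ * (1 / 2 : ℝ) ^ (n + 1) / (1 + S * M)) * (S * M) := by ring
    _ ≤ κ * (1 / 2 : ℝ) ^ (n + 1) / (1 + S * M) * (S * M) :=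
        mul_le_mul_of_nonneg_right h3 (by positivity)
    _ ≤ κ * (1 / 2 : ℝ) ^ (n + 1) / (1 + S * M) * (1 + S * M) := by
        apply mul_le_mul_of_nonneg_left _ (by positivity)
        linarith
    _ = κ * (1 / 2 : ℝ) ^ (n + 1) := div_mul_cancel₀ _ h2.ne'

theorem a4_cover {X : Type*} [NormedAddCommGroup X] [TopologicalSpace.SeparableSpace X]
    (r : X → ℝ) (hr : ∀ c, 0 < r c) : ∃ c : ℕ → X, ∀ x, ∃ n, ‖x - c n‖ < r (c n) / 2 := by
  haveI : SecondCountableTopology X := UniformSpace.secondCountable_of_separable X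
  obtain ⟨s, hs1, hs2⟩ := TopologicalSpace.countable_cover_nhds
    (f := fun c : X => Metric.ball c (r c / 2))
    (fun c => Metric.ball_mem_nhds c (half_pos (hr c)))
  have hne : s.Nonempty := by
    by_contra h
    rw [Set.not_nonempty_iff_eq_empty] at h
    have h0 : (0 : X) ∈ (Set.univ : Set X) := Set.mem_univ _
    rw [← hs2, h] at h0
    simp at h0
  obtain ⟨c, hc⟩ := hs1.exists_eq_range hne
  refine ⟨c, fun x => ?_⟩
  have hx : x ∈ (Set.univ : Set X) := Set.mem_univ _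
  rw [← hs2, Set.mem_iUnion₂] at hx
  obtain ⟨y, hy, hxy⟩ := hx
  rw [hc] at hy
  obtain ⟨n, rfl⟩ := hy
  refine ⟨n, ?_⟩
  rw [Metric.mem_ball, dist_eq_norm] at hxy
  exact hxy

theorem st_A4.{u} (h2 : ST_A2.{u}) (h3 : ST_A3.{u}) (hg : ST_GL.{u}) : ST_A4.{u} := by
  intro k X _ _ _ D hk hD happ q M hM hq1 hq2 g L0 κ ε hL0 hκ hε hgc hgl
  have H3 := h3 hD happ q M hM hq1 hq2 g L0 (κ / 2) hL0 (half_pos hκ) hgc hgl
  choose r hr hh using H3
  obtain ⟨c, hc⟩ := a4_cover r hr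
  have H2 := fun n => h2 hk hD happ (c n) (r (c n)) (hr _)
  choose b B hB0 hbc hb01 hbl hb1 hb0 using H2
  have He := fun n => a4_e (∑ m ∈ Finset.range (n + 1), B m) M (κ / 2) ε n
    (Finset.sum_nonneg fun m _ => hB0 m) hM (half_pos hκ) hε
  choose e he0 heε heB using He
  have Hh := fun n => hh (c n) (e n) (he0 n)
  choose h hhc hhl hhe using Hh
  obtain ⟨k1, k2, k3⟩ := hg q M hM hq1 hq2 g b B c (fun n => r (c n)) h e (L0 + κ / 2) (κ / 2) ε
    (by positivity) (half_pos hκ) hε hbc hb01 hB0 hbl (fun n => hr _) hb1 hb0 hc hhc hhl hhe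
    he0 heε heB
  refine ⟨Kg b h, k1, fun x y => ?_, k3⟩
  have h4 := k2 x y
  have h5 : L0 + κ / 2 + κ / 2 = L0 + κ := by ring
  rw [h5] at h4
  exact h4

end Pool.Agent.Helper94.UP
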